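import Mathlib

set_option autoImplicit false

namespace Pool.Agent.Results.MP_f151b7_co.Star

open Finset

def star (m : ℕ) : SimpleGraph (Option (Fin m)) :=
  SimpleGraph.fromRel (fun a _ => a = none)

lemma edge_iff (m : ℕ) (e : Sym2 (Option (Fin m))) :
    e ∈ (star m).edgeSet ↔ ∃ x : Fin m, e = s(none, some x) := by
  induction e using Sym2.ind with
  | _ a b =>
    rw [SimpleGraph.mem_edgeSet, star, SimpleGraph.fromRel_adj]
    cases a <;> cases b <;> simp

lemma inj (m : ℕ) : Function.Injective (fun x : Fin m => s(none, some x)) := by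
  intro x y h
  simpa using h

theorem result (k : ℕ) (hk : 3 ≤ k) :
    ∃ (V : Type) (_ : Finite V) (G : SimpleGraph V), k.choose 2 ≤ G.edgeSet.ncard ∧
      ∀ c : V → Fin k, ∃ i : Fin k,
        (({e ∈ G.edgeSet | ∃ v ∈ e, c v = i}.ncard : ℝ)) <
          2 * (G.edgeSet.ncard : ℝ) / (2 * k - 1) := by
  obtain ⟨j, rfl⟩ : ∃ j, k = j + 3 := ⟨k - 3, by omega⟩
  have hE : (star (2 * j ^ 2 + 6 * j + 3)).edgeSet.ncard = 2 * j ^ 2 + 6 * j + 3 := by
    have : (star (2 * j ^ 2 + 6 * j + 3)).edgeSet =
        (fun x => s(none, some x)) '' Set.univ := by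
      ext e
      rw [edge_iff]
      simp [eq_comm]
    rw [this, Set.ncard_image_of_injective _ (inj _), Set.ncard_univ]
    simp
  refine ⟨Option (Fin (2 * j ^ 2 + 6 * j + 3)), inferInstance, star _, ?_, ?_⟩
  · rw [hE, Nat.choose_two_right]
    apply Nat.div_le_of_le_mul
    have : j + 3 - 1 = j + 2 := by omega
    rw [this]
    nlinarith
  · intro c
    rw [hE]
    have h := exists_card_fiber_lt_of_card_lt_mul
      (s := (univ : Finset (Fin (2 * j ^ 2 + 6 * j + 3)))) (t := univ.erase (c none))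
      (f := fun x => c (some x)) (n := 2 * j + 2) (by
        rw [card_erase_of_mem (mem_univ _)]
        simp only [card_univ, Fintype.card_fin]
        have : j + 3 - 1 = j + 2 := by omega
        rw [this]
        nlinarith)
    obtain ⟨i, hi, hlt⟩ := h
    refine ⟨i, ?_⟩
    have hne : c none ≠ i := (ne_of_mem_erase hi).symm
    have : {e ∈ (star (2 * j ^ 2 + 6 * j + 3)).edgeSet | ∃ v ∈ e, c v = i} =
        (fun x => s(none, some x)) '' ↑(univ.filter (fun x => c (some x) = i)) := by
      ext e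
      simp only [Set.mem_ofPred_eq, edge_iff, Set.mem_image, coe_filter, mem_univ, true_and]
      constructor
      · rintro ⟨⟨x, rfl⟩, v, hv, hc⟩
        rcases Sym2.mem_iff.mp hv with rfl | rfl
        · exact absurd hc hne
        · exact ⟨x, hc, rfl⟩
      · rintro ⟨x, hx, rfl⟩
        exact ⟨⟨x, rfl⟩, some x, by simp, hx⟩
    rw [this, Set.ncard_image_of_injective _ (inj _), Set.ncard_coe_finset]
    have h2 : ((univ.filter (fun x => c (some x) = i)).card : ℝ) ≤ 2 * j + 1 := by
      exact_mod_cast Nat.lt_succ_iff.mp hlt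
    rw [lt_div_iff₀ (by push_cast; linarith [(Nat.cast_nonneg j : (0 : ℝ) ≤ j)])]
    push_cast
    nlinarith [(Nat.cast_nonneg j : (0 : ℝ) ≤ j)]

end Pool.Agent.Results.MP_f151b7_co.Star
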